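import Pool.Agent.H4.Branch

set_option autoImplicit false

namespace Pool.Agent.Results.MP_042d8e_al.ManyT

open Pool.Agent.H4.Branch

/-- There is a (countable) branch group with infinitely many pairwise inequivalent normal
T-sequences. -/
theorem result :
    ∃ (G : Type) (_ : Group G), IsBranch G ∧
      ∃ M : ℕ → ℕ → Subgroup G, (∀ i, IsNormalTSeq (M i)) ∧
        ∀ i j, i ≠ j → ¬ TEquiv (M i) (M j) :=
  ⟨Pool.Agent.H4.Branch.G, inferInstance, isBranch, fun j => M (SS j), fun _ => isNormalTSeq _,
    not_equiv⟩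

end Pool.Agent.Results.MP_042d8e_al.ManyT
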